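import Mathlib
import Pool.Agent.Helper17.FourBar

/-!
# An expansive one-degree-of-freedom mechanism whose expansive motion breaks the symmetry

The framework is the flat four-bar linkage `A = 0, B = 3, C = 1, D = 2` on a line in the plane,
with bars `AB, BC, CD, DA` of lengths `3, 2, 1, 2`.
-/

namespace Pool.Agent.Results.MP_e3c312_co.FlatFourBar

open Set Topology

section Defs

variable {E : Type} [MetricSpace E] {V : Type}

/-- The placements with the same edge lengths as the framework `(G, p)`. -/
def Placement (G : SimpleGraph V) (p : V → E) : Type :=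
  {q : V → E // ∀ i j, G.Adj i j → dist (q i) (q j) = dist (p i) (p j)}

instance (G : SimpleGraph V) (p : V → E) : TopologicalSpace (Placement G p) :=
  instTopologicalSpaceSubtype

/-- Two placements are identified when they differ by an isometry of the ambient space. -/
def congruence (G : SimpleGraph V) (p : V → E) : Setoid (Placement G p) where
  r q q' := ∃ T : E ≃ᵢ E, ∀ i, T (q.1 i) = q'.1 i
  iseqv :=
    { refl := fun q => ⟨IsometryEquiv.refl E, fun _ => rfl⟩
      symm := fun {q q'} ⟨T, hT⟩ => ⟨T.symm, fun i => by rw [← hT i]; simp⟩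
      trans := fun {q q' q''} ⟨T, hT⟩ ⟨T', hT'⟩ =>
        ⟨T.trans T', fun i => by rw [← hT' i, ← hT i]; rfl⟩ }

/-- The configuration space `C` of `(G, p)`: placements with the same edge lengths modulo
isometries, with the quotient topology. -/
def Config (G : SimpleGraph V) (p : V → E) : Type := Quotient (congruence G p)

instance (G : SimpleGraph V) (p : V → E) : TopologicalSpace (Config G p) :=
  inferInstanceAs (TopologicalSpace (Quotient (congruence G p)))

/-- The class of a placement. -/
def cls (G : SimpleGraph V) (p : V → E) (q : Placement G p) : Config G p :=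
  Quotient.mk (congruence G p) q

/-- The class `[p]`. -/
def base (G : SimpleGraph V) (p : V → E) : Config G p := cls G p ⟨p, fun _ _ _ => rfl⟩

/-- `(G, p)` is a one-degree-of-freedom mechanism: some neighbourhood of `[p]` in the configuration
space is homeomorphic to an open interval. -/
def IsOneDOF (G : SimpleGraph V) (p : V → E) : Prop :=
  ∃ U : Set (Config G p), IsOpen U ∧ base G p ∈ U ∧ Nonempty (U ≃ₜ Ioo (-1 : ℝ) 1)

/-- `H` is a half-branch at `[p]`: for some open neighbourhood `U` of `[p]` and some homeomorphism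
`h` of `U` onto `(-1, 1)` with `h [p] = 0`, `H` is the set of points of `U` with `h > 0`. -/
def IsHalfBranch (G : SimpleGraph V) (p : V → E) (H : Set (Config G p)) : Prop :=
  ∃ (U : Set (Config G p)) (_ : IsOpen U) (hp : base G p ∈ U) (h : U ≃ₜ Ioo (-1 : ℝ) 1),
    (h ⟨base G p, hp⟩ : ℝ) = 0 ∧ H = {x | ∃ hx : x ∈ U, 0 < (h ⟨x, hx⟩ : ℝ)}

/-- A motion of `(G, p)`: a continuous path of placements, starting at `p`, with constant edge
lengths. -/
structure Motion (G : SimpleGraph V) (p : V → E) where
  /-- the path -/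
  path : unitInterval → V → E
  continuous_path : Continuous path
  start : path 0 = p
  edges : ∀ t i j, G.Adj i j → dist (path t i) (path t j) = dist (p i) (p j)

/-- The class `[p(t)]`. -/
def Motion.at {G : SimpleGraph V} {p : V → E} (γ : Motion G p) (t : unitInterval) : Config G p :=
  cls G p ⟨γ.path t, γ.edges t⟩

/-- The motion is expansive: all pairwise distances are non-decreasing, and at least one of them
is not constant. -/
def Motion.Expansive {G : SimpleGraph V} {p : V → E} (γ : Motion G p) : Prop :=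
  (∀ i j, Monotone fun t => dist (γ.path t i) (γ.path t j)) ∧
    ∃ i j t t', dist (γ.path t i) (γ.path t j) ≠ dist (γ.path t' i) (γ.path t' j)

/-- The classes `[p(t)]` trace one half-branch injectively, starting at `[p]`. -/
def Motion.TracesHalfBranch {G : SimpleGraph V} {p : V → E} (γ : Motion G p) : Prop :=
  Function.Injective γ.at ∧
    ∃ H, IsHalfBranch G p H ∧ {x | ∃ t, 0 < t ∧ t < 1 ∧ γ.at t = x} = H

/-- `q` is symmetric with respect to the group `Γ` acting by the isometries `ρ g` on the space and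
by the automorphisms `θ g` on the graph. -/
def IsSymmetric {Γ : Type} [Group Γ] {G : SimpleGraph V} (ρ : Γ →* (E ≃ᵢ E)) (θ : Γ →* (G ≃g G))
    (q : V → E) : Prop :=
  ∀ g i, ρ g (q i) = q (θ g i)

/-- The motion preserves the symmetry: there are isometries `T t`, continuous in `t`, with
`T 0 = id`, such that `T t ∘ p(t)` is symmetric for every `t`. -/
def Motion.PreservesSymmetry {Γ : Type} [Group Γ] {G : SimpleGraph V} {p : V → E}
    (γ : Motion G p) (ρ : Γ →* (E ≃ᵢ E)) (θ : Γ →* (G ≃g G)) : Prop :=
  ∃ T : unitInterval → (E ≃ᵢ E), T 0 = IsometryEquiv.refl E ∧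
    (∀ x, Continuous fun t => T t x) ∧ ∀ t, IsSymmetric ρ θ fun i => T t (γ.path t i)

end Defs

/-- The statement of Q1. -/
def Q1 : Prop :=
  ∀ (d : ℕ) (V : Type) [Fintype V] (G : SimpleGraph V) (p : V → EuclideanSpace ℝ (Fin d))
    (Γ : Type) [Group Γ] [Finite Γ]
    (ρ : Γ →* (EuclideanSpace ℝ (Fin d) ≃ᵢ EuclideanSpace ℝ (Fin d))) (θ : Γ →* (G ≃g G)),
    Function.Injective ρ → IsSymmetric ρ θ p → IsOneDOF G p →
    ∀ γ : Motion G p, γ.Expansive → γ.TracesHalfBranch → γ.PreservesSymmetry ρ θ

/-! ### The example -/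

open Helper17.FourBar

/-- The four-cycle `A B C D`. -/
def C4 : SimpleGraph (Fin 4) where
  Adj i j := j = i + 1 ∨ i = j + 1
  symm := ⟨fun _ _ h => h.symm⟩
  loopless := ⟨by decide⟩

instance : DecidableRel C4.Adj := fun i j => by unfold C4; infer_instance

/-- The automorphism exchanging `A, B` and `C, D`. -/
def swap : C4 ≃g C4 where
  toFun i := 1 - i
  invFun i := 1 - i
  left_inv := by decide
  right_inv := by decide
  map_rel_iff' := by decide

theorem swap_mul_swap : swap * swap = 1 := by
  ext i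
  revert i
  decide

section Example

variable {E : Type} [MetricSpace E] (e : ℂ ≃ᵢ E)

/-- The flat placement. -/
noncomputable def p0 : Fin 4 → E := fun i => e (Qc 0 i)

/-- The reflection exchanging `A, B` and `C, D`. -/
noncomputable def refl : E ≃ᵢ E :=
  e.symm.trans (((IsometryEquiv.subLeft (3 : ℂ))).trans e)

theorem refl_apply (z : ℂ) : refl e (e z) = e (3 - z) := by
  simp [refl]

theorem refl_mul_refl : refl e * refl e = 1 := by
  ext x
  obtain ⟨z, rfl⟩ := e.surjective x
  rw [IsometryEquiv.mul_apply, refl_apply, refl_apply]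
  simp

/-- The action on the plane of the group with two elements. -/
noncomputable def rhoHom : ℤˣ →* (E ≃ᵢ E) where
  toFun u := if u = 1 then 1 else refl e
  map_one' := by simp
  map_mul' := by
    intro a b
    rcases Int.units_eq_one_or a with rfl | rfl <;> rcases Int.units_eq_one_or b with rfl | rfl
    · simp
    · simp
    · simp
    · simp [refl_mul_refl]

/-- The action on the graph of the group with two elements. -/
def thetaHom : ℤˣ →* (C4 ≃g C4) where
  toFun u := if u = 1 then 1 else swap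
  map_one' := by simp
  map_mul' := by
    intro a b
    rcases Int.units_eq_one_or a with rfl | rfl <;> rcases Int.units_eq_one_or b with rfl | rfl
    · simp
    · simp
    · simp
    · simp [swap_mul_swap]

theorem Qc_zero_apply (i : Fin 4) : 3 - Qc 0 i = Qc 0 (1 - i) := by
  rw [Qc_zero]
  fin_cases i
  · change (3 : ℂ) - 0 = 3; norm_num
  · change (3 : ℂ) - 3 = 0; norm_num
  · change (3 : ℂ) - 1 = 2; norm_num
  · change (3 : ℂ) - 2 = 1; norm_num

theorem symmetric_p0 : IsSymmetric (rhoHom e) thetaHom (p0 e) := by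
  intro g i
  rcases Int.units_eq_one_or g with rfl | rfl
  · simp
  · have h1 : rhoHom e (-1) = refl e := by simp [rhoHom]
    have h2 : thetaHom (-1) = swap := by simp [thetaHom]
    rw [h1, h2]
    change refl e (e (Qc 0 i)) = e (Qc 0 (1 - i))
    rw [refl_apply, Qc_zero_apply]

theorem rho_injective : Function.Injective (rhoHom e) := by
  rw [injective_iff_map_eq_one]
  intro g hg
  rcases Int.units_eq_one_or g with rfl | rfl
  · rfl
  · exfalso
    have h1 : rhoHom e (-1) = refl e := by simp [rhoHom]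
    rw [h1] at hg
    have h2 : refl e (e 0) = e 0 := by rw [hg]; rfl
    rw [refl_apply] at h2
    have := e.injective h2
    norm_num at this

/-- `|0| < 1`. -/
theorem abs_zero_lt : |(0 : ℝ)| < 1 := by simp

theorem Qc_edges {τ : ℝ} (h : |τ| < 1) (i j : Fin 4) (hij : C4.Adj i j) :
    dist (Qc τ i) (Qc τ j) = dist (Qc 0 i) (Qc 0 j) := by
  have key : ∀ {σ : ℝ}, |σ| < 1 → dist (Qc σ 0) (Qc σ 1) = 3 ∧ dist (Qc σ 1) (Qc σ 2) = 2 ∧
      dist (Qc σ 2) (Qc σ 3) = 1 ∧ dist (Qc σ 3) (Qc σ 0) = 2 := fun h =>
    ⟨dist01 _, dist12 h, dist23 h, dist30 h⟩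
  obtain ⟨a1, a2, a3, a4⟩ := key h
  obtain ⟨b1, b2, b3, b4⟩ := key abs_zero_lt
  have hcase : (i = 0 ∧ j = 1) ∨ (i = 1 ∧ j = 2) ∨ (i = 2 ∧ j = 3) ∨ (i = 3 ∧ j = 0) ∨
      (j = 0 ∧ i = 1) ∨ (j = 1 ∧ i = 2) ∨ (j = 2 ∧ i = 3) ∨ (j = 3 ∧ i = 0) := by
    revert i j
    decide
  rcases hcase with ⟨rfl, rfl⟩ | ⟨rfl, rfl⟩ | ⟨rfl, rfl⟩ | ⟨rfl, rfl⟩ | ⟨rfl, rfl⟩ | ⟨rfl, rfl⟩ |
    ⟨rfl, rfl⟩ | ⟨rfl, rfl⟩
  · rw [a1, b1]
  · rw [a2, b2]
  · rw [a3, b3]
  · rw [a4, b4]
  · rw [dist_comm, a1, dist_comm, b1]
  · rw [dist_comm, a2, dist_comm, b2]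
  · rw [dist_comm, a3, dist_comm, b3]
  · rw [dist_comm, a4, dist_comm, b4]

/-- The placement `Q(τ)` in `E`. -/
noncomputable def QE (τ : ℝ) (h : |τ| < 1) : Placement C4 (p0 e) :=
  ⟨fun i => e (Qc τ i), fun i j hij => by
    rw [e.dist_eq, Qc_edges h i j hij, p0, p0, e.dist_eq]⟩

/-- `s = (|AC|² - 1) / 12` on placements. -/
noncomputable def sP (q : Placement C4 (p0 e)) : ℝ := (dist (q.1 0) (q.1 2) ^ 2 - 1) / 12

/-- `t = (|BD|² - 1) / 12` on placements. -/
noncomputable def tP (q : Placement C4 (p0 e)) : ℝ := (dist (q.1 1) (q.1 3) ^ 2 - 1) / 12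

theorem continuous_sP : Continuous (sP e) := by
  unfold sP
  have h : ∀ i, Continuous fun q : Placement C4 (p0 e) => q.1 i := fun i =>
    (continuous_apply i).comp continuous_subtype_val
  exact ((((h 0).dist (h 2)).pow 2).sub continuous_const).div_const _

theorem continuous_tP : Continuous (tP e) := by
  unfold tP
  have h : ∀ i, Continuous fun q : Placement C4 (p0 e) => q.1 i := fun i =>
    (continuous_apply i).comp continuous_subtype_val
  exact ((((h 1).dist (h 3)).pow 2).sub continuous_const).div_const _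

/-- `s` on the configuration space. -/
noncomputable def sC : Config C4 (p0 e) → ℝ := Quotient.lift (sP e) (by
  rintro q q' ⟨T, hT⟩
  unfold sP
  rw [← hT, ← hT, T.dist_eq])

/-- `t` on the configuration space. -/
noncomputable def tC : Config C4 (p0 e) → ℝ := Quotient.lift (tP e) (by
  rintro q q' ⟨T, hT⟩
  unfold tP
  rw [← hT, ← hT, T.dist_eq])

theorem continuous_sC : Continuous (sC e) := (continuous_sP e).quotient_lift _

theorem continuous_tC : Continuous (tC e) := (continuous_tP e).quotient_lift _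

theorem sC_cls (q : Placement C4 (p0 e)) : sC e (cls _ _ q) = sP e q := rfl

theorem tC_cls (q : Placement C4 (p0 e)) : tC e (cls _ _ q) = tP e q := rfl

theorem sP_QE {τ : ℝ} (h : |τ| < 1) : sP e (QE e τ h) = sF τ := by
  change (dist (e (Qc τ 0)) (e (Qc τ 2)) ^ 2 - 1) / 12 = _
  rw [e.dist_eq, dist02 h, Real.sq_sqrt]
  · ring
  · have := sF_nonneg h
    positivity

theorem tP_QE {τ : ℝ} (h : |τ| < 1) : tP e (QE e τ h) = tF τ := by
  change (dist (e (Qc τ 1)) (e (Qc τ 3)) ^ 2 - 1) / 12 = _
  rw [e.dist_eq, dist13 h, Real.sq_sqrt]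
  · ring
  · have := tF_nonneg h
    positivity

/-- Every placement near the flat one is congruent to a `Q(τ)`. -/
theorem normal (q : Placement C4 (p0 e)) (hst : sP e q + tP e q < 1 / 2) :
    |(sP e q - tP e q) / g (sP e q + tP e q)| = sP e q + tP e q ∧
    ∀ h : |(sP e q - tP e q) / g (sP e q + tP e q)| < 1,
      cls _ _ (QE e ((sP e q - tP e q) / g (sP e q + tP e q)) h) = cls _ _ q := by
  obtain ⟨q, hq⟩ := q
  have hd : ∀ i j : Fin 4, dist (e.symm (q i)) (e.symm (q j)) = dist (q i) (q j) := fun i j =>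
    e.symm.dist_eq _ _
  have hq' : ∀ i j, C4.Adj i j → dist (q i) (q j) = dist (Qc 0 i) (Qc 0 j) := by
    intro i j hij
    rw [hq i j hij, p0, p0, e.dist_eq]
  set s := sP e ⟨q, hq⟩ with hs
  set t := tP e ⟨q, hq⟩ with ht
  have hs' : dist (q 0) (q 2) ^ 2 = 1 + 12 * s := by
    rw [hs]; unfold sP; ring
  have ht' : dist (q 1) (q 3) ^ 2 = 1 + 12 * t := by
    rw [ht]; unfold tP; ring
  obtain ⟨h1, h2, h3, T, hT⟩ := exists_isometry (q := fun i => e.symm (q i))
    (by rw [hd, hq' 0 1 (by decide), dist01])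
    (by rw [hd, hq' 1 2 (by decide), dist12 abs_zero_lt])
    (by rw [hd, hq' 2 3 (by decide), dist23 abs_zero_lt])
    (by rw [hd, hq' 3 0 (by decide), dist30 abs_zero_lt])
    (by rw [hd, hs']) (by rw [hd, ht']) hst
  refine ⟨h1, fun h => ?_⟩
  symm
  apply Quotient.sound
  refine ⟨e.symm.trans (T.trans e), fun i => ?_⟩
  change e (T (e.symm (q i))) = e (Qc _ i)
  rw [hT]

/-- The neighbourhood of `[p]`. -/
def U : Set (Config C4 (p0 e)) := {x | sC e x + tC e x < 1 / 4}

theorem isOpen_U : IsOpen (U e) :=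
  isOpen_lt ((continuous_sC e).add (continuous_tC e)) continuous_const

/-- The coordinate `τ` on the configuration space. -/
noncomputable def tau (x : Config C4 (p0 e)) : ℝ :=
  (sC e x - tC e x) / g (sC e x + tC e x)

theorem abs_tau {x : Config C4 (p0 e)} (hx : x ∈ U e) : |tau e x| = sC e x + tC e x := by
  induction x using Quotient.inductionOn with
  | h q =>
    have hx' : sP e q + tP e q < 1 / 4 := hx
    exact (normal e q (by linarith)).1

theorem tau_QE {τ : ℝ} (h : |τ| < 1) : tau e (cls _ _ (QE e τ h)) = τ := by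
  unfold tau
  rw [sC_cls, tC_cls, sP_QE, tP_QE, sF_add_tF, sF_sub_tF]
  have := g_pos h
  field_simp

theorem QE_mem {τ : ℝ} (h : |τ| < 1 / 4) (h' : |τ| < 1) : cls _ _ (QE e τ h') ∈ U e := by
  change sC e _ + tC e _ < 1 / 4
  rw [sC_cls, tC_cls, sP_QE, tP_QE, sF_add_tF]
  exact h

theorem continuousOn_tau : ContinuousOn (tau e) (U e) := by
  unfold tau
  apply ContinuousOn.div
  · exact ((continuous_sC e).sub (continuous_tC e)).continuousOn
  · unfold g
    apply ContinuousOn.sqrt
    apply ContinuousOn.div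
    · exact (continuous_const.mul
        (continuous_const.sub ((continuous_sC e).add (continuous_tC e)))).continuousOn
    · exact (continuous_const.sub
        (continuous_const.mul ((continuous_sC e).add (continuous_tC e)))).continuousOn
    · intro x hx
      have : sC e x + tC e x < 1 / 4 := hx
      linarith
  · intro x hx
    have : sC e x + tC e x < 1 / 4 := hx
    exact (g_pos (by linarith)).ne'

theorem lt_one_of_mem {y : ℝ} (hy : y ∈ Ioo (-1 : ℝ) 1) : |y / 4| < 1 / 4 := by
  rw [abs_div, abs_of_pos (by norm_num : (0 : ℝ) < 4)]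
  have := abs_lt.2 hy
  linarith

/-- The homeomorphism of the neighbourhood `U` of `[p]` with an open interval. -/
noncomputable def chart : U e ≃ₜ Ioo (-1 : ℝ) 1 where
  toFun x := ⟨4 * tau e x.1, by
    have h1 := abs_tau e x.2
    have h2 : sC e x.1 + tC e x.1 < 1 / 4 := x.2
    rw [← h1] at h2
    rw [abs_lt] at h2
    constructor <;> linarith [h2.1, h2.2]⟩
  invFun y := ⟨cls _ _ (QE e (y.1 / 4) (by have := lt_one_of_mem y.2; linarith)),
    QE_mem e (lt_one_of_mem y.2) _⟩
  left_inv := by
    rintro ⟨x, hx⟩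
    apply Subtype.ext
    induction x using Quotient.inductionOn with
    | h q =>
      have hx' : sP e q + tP e q < 1 / 4 := hx
      have h1 := normal e q (by linarith)
      have h2 : (4 * tau e (Quotient.mk _ q)) / 4 = (sP e q - tP e q) / g (sP e q + tP e q) := by
        change (4 * ((sP e q - tP e q) / g (sP e q + tP e q))) / 4 = _
        ring
      simp only
      have h3 := h1.2 (by rw [h1.1]; linarith)
      simp only [h2]
      exact h3
  right_inv := by
    rintro ⟨y, hy⟩
    apply Subtype.ext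
    simp only
    rw [tau_QE]
    ring
  continuous_toFun := by
    apply Continuous.subtype_mk
    exact continuous_const.mul (continuousOn_iff_continuous_domRestrict.1 (continuousOn_tau e))
  continuous_invFun := by
    apply Continuous.subtype_mk
    apply continuous_quotient_mk'.comp
    apply Continuous.subtype_mk
    rw [continuous_pi_iff]
    intro i
    apply e.continuous.comp
    have h1 : Continuous fun y : Ioo (-1 : ℝ) 1 => Qc (y.1 / 4) := by
      apply continuous_Qc.comp_continuous (continuous_subtype_val.div_const 4)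
      intro y
      have := lt_one_of_mem y.2
      change |y.1 / 4| < 1
      linarith
    exact (continuous_apply i).comp h1

theorem base_eq : base C4 (p0 e) = cls _ _ (QE e 0 abs_zero_lt) := rfl

theorem base_mem : base C4 (p0 e) ∈ U e := by
  rw [base_eq]
  exact QE_mem e (by simp) _

theorem chart_apply (x : U e) : (chart e x : ℝ) = 4 * tau e x.1 := rfl

theorem unit_abs (t : unitInterval) : |(t : ℝ) / 4| < 1 := by
  rw [abs_of_nonneg (by have := t.2.1; positivity)]
  have := t.2.2
  linarith

/-- The motion. -/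
noncomputable def motion : Motion C4 (p0 e) where
  path t i := e (Qc ((t : ℝ) / 4) i)
  continuous_path := by
    rw [continuous_pi_iff]
    intro i
    apply e.continuous.comp
    have h1 : Continuous fun t : unitInterval => Qc ((t : ℝ) / 4) := by
      apply continuous_Qc.comp_continuous (continuous_subtype_val.div_const 4)
      intro t
      exact unit_abs t
    exact (continuous_apply i).comp h1
  start := by
    funext i
    simp [p0]
  edges t i j hij := by
    rw [e.dist_eq, Qc_edges (unit_abs t) i j hij, p0, p0, e.dist_eq]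

theorem motion_at (t : unitInterval) :
    (motion e).at t = cls _ _ (QE e ((t : ℝ) / 4) (unit_abs t)) := rfl

theorem motion_expansive : (motion e).Expansive := by
  have hmono : ∀ {x y : unitInterval}, x ≤ y → sF ((x : ℝ) / 4) ≤ sF ((y : ℝ) / 4) ∧
      tF ((x : ℝ) / 4) ≤ tF ((y : ℝ) / 4) := by
    intro x y hxy
    have h1 : (x : ℝ) ≤ y := hxy
    have h2 := x.2.1
    have h3 := y.2.2
    exact ⟨sF_mono (by positivity) (by linarith) (by linarith),
      tF_mono (by positivity) (by linarith) (by linarith)⟩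
  have hdist : ∀ (t : unitInterval) (i j : Fin 4),
      dist ((motion e).path t i) ((motion e).path t j)
        = dist (Qc ((t : ℝ) / 4) i) (Qc ((t : ℝ) / 4) j) := by
    intro t i j
    exact e.dist_eq _ _
  constructor
  · intro i j x y hxy
    change dist ((motion e).path x i) ((motion e).path x j)
      ≤ dist ((motion e).path y i) ((motion e).path y j)
    rw [hdist, hdist]
    obtain ⟨m1, m2⟩ := hmono hxy
    have hcase : C4.Adj i j ∨ i = j ∨ (i = 0 ∧ j = 2) ∨ (i = 2 ∧ j = 0) ∨ (i = 1 ∧ j = 3) ∨
        (i = 3 ∧ j = 1) := by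
      revert i j
      decide
    have k1 : dist (Qc ((x : ℝ) / 4) 0) (Qc ((x : ℝ) / 4) 2)
        ≤ dist (Qc ((y : ℝ) / 4) 0) (Qc ((y : ℝ) / 4) 2) := by
      rw [dist02 (unit_abs x), dist02 (unit_abs y)]
      exact Real.sqrt_le_sqrt (by linarith)
    have k2 : dist (Qc ((x : ℝ) / 4) 1) (Qc ((x : ℝ) / 4) 3)
        ≤ dist (Qc ((y : ℝ) / 4) 1) (Qc ((y : ℝ) / 4) 3) := by
      rw [dist13 (unit_abs x), dist13 (unit_abs y)]
      exact Real.sqrt_le_sqrt (by linarith)
    rcases hcase with h | rfl | ⟨rfl, rfl⟩ | ⟨rfl, rfl⟩ | ⟨rfl, rfl⟩ | ⟨rfl, rfl⟩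
    · rw [Qc_edges (unit_abs x) i j h, Qc_edges (unit_abs y) i j h]
    · simp
    · exact k1
    · rw [dist_comm, dist_comm (Qc ((y : ℝ) / 4) 2)]; exact k1
    · exact k2
    · rw [dist_comm, dist_comm (Qc ((y : ℝ) / 4) 3)]; exact k2
  · refine ⟨0, 2, 0, 1, ?_⟩
    rw [hdist, hdist, dist02 (unit_abs 0), dist02 (unit_abs 1)]
    have h0 : sF (((0 : unitInterval) : ℝ) / 4) = 0 := by simp [sF]
    have h1 : 0 < sF (((1 : unitInterval) : ℝ) / 4) := by
      have hg := g_pos (x := 1 / 4) (by norm_num)
      unfold sF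
      simp only [Set.Icc.coe_one]
      rw [abs_of_pos (by norm_num : (0 : ℝ) < 1 / 4)]
      positivity
    rw [h0]
    intro heq
    have h2 : √(1 + 12 * (0 : ℝ)) < √(1 + 12 * sF (((1 : unitInterval) : ℝ) / 4)) :=
      Real.sqrt_lt_sqrt (by norm_num) (by linarith)
    exact h2.ne heq

theorem motion_traces : (motion e).TracesHalfBranch := by
  constructor
  · intro x y hxy
    rw [motion_at, motion_at] at hxy
    have h := congrArg (tau e) hxy
    rw [tau_QE, tau_QE] at h
    apply Subtype.ext
    linarith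
  · refine ⟨{x | ∃ hx : x ∈ U e, 0 < (chart e ⟨x, hx⟩ : ℝ)},
      ⟨U e, isOpen_U e, base_mem e, chart e, ?_, rfl⟩, ?_⟩
    · rw [chart_apply]
      change 4 * tau e (base C4 (p0 e)) = 0
      rw [base_eq, tau_QE]
      ring
    · ext x
      constructor
      · rintro ⟨t, ht0, ht1, rfl⟩
        rw [motion_at]
        have h0 : (0 : ℝ) < t := ht0
        have h1 : (t : ℝ) < 1 := ht1
        refine ⟨QE_mem e ?_ _, ?_⟩
        · rw [abs_of_pos (by positivity)]; linarith
        · rw [chart_apply]
          change 0 < 4 * tau e (cls _ _ (QE e ((t : ℝ) / 4) (unit_abs t)))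
          rw [tau_QE]
          positivity
      · rintro ⟨hx, hpos⟩
        have hmem := (chart e ⟨x, hx⟩).2
        refine ⟨⟨(chart e ⟨x, hx⟩ : ℝ), hpos.le, hmem.2.le⟩, hpos, hmem.2, ?_⟩
        rw [motion_at]
        have := (chart e).symm_apply_apply ⟨x, hx⟩
        exact congrArg Subtype.val this

theorem motion_not_preserves : ¬ (motion e).PreservesSymmetry (rhoHom e) thetaHom := by
  rintro ⟨T, -, -, hT⟩
  have h := hT 1
  have h1 : rhoHom e (-1) = refl e := by simp [rhoHom]
  have h2 : thetaHom (-1) = swap := by simp [thetaHom]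
  have k0 := h (-1) 0
  have k2 := h (-1) 2
  rw [h1, h2] at k0 k2
  have s0 : swap 0 = 1 := by decide
  have s2 : swap 2 = 3 := by decide
  simp only [s0, s2] at k0 k2
  have hd : dist ((motion e).path 1 0) ((motion e).path 1 2)
      = dist ((motion e).path 1 1) ((motion e).path 1 3) := by
    rw [← (T 1).dist_eq ((motion e).path 1 0), ← (T 1).dist_eq ((motion e).path 1 1), ← k0, ← k2,
      (refl e).dist_eq]
  have e1 : dist ((motion e).path 1 0) ((motion e).path 1 2)
      = √(1 + 12 * sF (((1 : unitInterval) : ℝ) / 4)) := by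
    rw [← dist02 (unit_abs 1)]
    exact e.dist_eq _ _
  have e2 : dist ((motion e).path 1 1) ((motion e).path 1 3)
      = √(1 + 12 * tF (((1 : unitInterval) : ℝ) / 4)) := by
    rw [← dist13 (unit_abs 1)]
    exact e.dist_eq _ _
  rw [e1, e2] at hd
  have hs := sF_nonneg (unit_abs 1)
  have ht := tF_nonneg (unit_abs 1)
  have h3 := (Real.sqrt_inj (by positivity) (by positivity)).1 hd
  have h4 := sF_sub_tF (((1 : unitInterval) : ℝ) / 4)
  have hg := g_pos (unit_abs 1)
  have h5 : (0 : ℝ) < ((1 : unitInterval) : ℝ) / 4 := by simp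
  have h6 : 0 < ((1 : unitInterval) : ℝ) / 4 * g |((1 : unitInterval) : ℝ) / 4| := mul_pos h5 hg
  linarith

theorem injective_p0 : Function.Injective (p0 e) := by
  intro i j hij
  have h := e.injective hij
  rw [Qc_zero] at h
  revert h
  fin_cases i <;> fin_cases j <;> simp [Matrix.cons_val]

end Example

/-- **Main theorem.**  Q1 is false.  Explicitly, there is a framework `(G, p)` in the plane (a
four-cycle with four distinct collinear points), symmetric with respect to a group of two
isometries, which is a one-degree-of-freedom mechanism and has an expansive motion that traces a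
half-branch at `[p]` and does not preserve the symmetry. -/
theorem result :
    ¬ Q1 ∧
    ∃ (G : SimpleGraph (Fin 4)) (p : Fin 4 → EuclideanSpace ℝ (Fin 2))
      (ρ : ℤˣ →* (EuclideanSpace ℝ (Fin 2) ≃ᵢ EuclideanSpace ℝ (Fin 2))) (θ : ℤˣ →* (G ≃g G)),
      Function.Injective p ∧ Function.Injective ρ ∧ IsSymmetric ρ θ p ∧ IsOneDOF G p ∧
      ∃ γ : Motion G p, γ.Expansive ∧ γ.TracesHalfBranch ∧ ¬ γ.PreservesSymmetry ρ θ := by
  let e : ℂ ≃ᵢ EuclideanSpace ℝ (Fin 2) :=
    Complex.orthonormalBasisOneI.repr.toIsometryEquiv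
  have hdof : IsOneDOF C4 (p0 e) := ⟨U e, isOpen_U e, base_mem e, ⟨chart e⟩⟩
  refine ⟨fun h => ?_, C4, p0 e, rhoHom e, thetaHom, injective_p0 e, rho_injective e,
    symmetric_p0 e, hdof, motion e, motion_expansive e, motion_traces e, motion_not_preserves e⟩
  exact motion_not_preserves e (h 2 (Fin 4) C4 (p0 e) ℤˣ (rhoHom e) thetaHom (rho_injective e)
    (symmetric_p0 e) hdof (motion e) (motion_expansive e) (motion_traces e))

end Pool.Agent.Results.MP_e3c312_co.FlatFourBar
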